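import Pool.Agent.R592.Ba.Defs

/-!
# BAF-1 (helper139): approximation of a homeomorphism of small sets by compact pieces
-/

open Cardinal Set Pool.Agent.R592.Ba

namespace Pool.Agent.R139.Ba

open Topology Filter

theorem agree_mono {m n : ℕ} (h : m ≤ n) {x y : X} (ha : Agree n x y) : Agree m x y :=
  fun i hi => ha i (lt_of_lt_of_le hi h)

theorem agree_symm {n : ℕ} {x y : X} (ha : Agree n x y) : Agree n y x := fun i hi => (ha i hi).symm

theorem agree_trans {n : ℕ} {x y z : X} (ha : Agree n x y) (hb : Agree n y z) : Agree n x z :=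
  fun i hi => (ha i hi).trans (hb i hi)

theorem agree_nhds (x : X) (n : ℕ) : {y : X | Agree n y x} ∈ 𝓝 x := by
  have h1 : {y : X | Agree n y x} = PiNat.cylinder x n := by
    ext y
    rfl
  rw [h1]
  exact (PiNat.isOpen_cylinder (fun _ : ℕ => Bool) x n).mem_nhds (PiNat.self_mem_cylinder x n)

theorem nhds_agree (x : X) (U : Set X) (hU : U ∈ 𝓝 x) : ∃ m, ∀ y, Agree m y x → y ∈ U := by
  obtain ⟨V, ⟨z, n, rfl⟩, hx, hV⟩ :=
    (PiNat.isTopologicalBasis_cylinders (fun _ : ℕ => Bool)).mem_nhds_iff.1 hU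
  refine ⟨n, fun y hy => hV ?_⟩
  rw [← PiNat.mem_cylinder_iff_eq.1 hx]
  exact hy

theorem closure_agree {S : Set X} {x : X} (hx : x ∈ closure S) (n : ℕ) : ∃ s ∈ S, Agree n s x := by
  obtain ⟨y, hy1, hy2⟩ := mem_closure_iff_nhds.1 hx _ (agree_nhds x n)
  exact ⟨y, hy2, hy1⟩

theorem modulus {S : Set X} (k : S → X) (hk : Continuous k) (p : S) (i : ℕ) :
    ∃ m, ∀ q : S, Agree m q p → Agree i (k q) (k p) := by
  have h1 : k ⁻¹' {z | Agree i z (k p)} ∈ 𝓝 p := hk.continuousAt.preimage_mem_nhds (agree_nhds _ _)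
  obtain ⟨u, hu, hu2⟩ := (mem_nhds_subtype S p _).1 h1
  obtain ⟨m, hm⟩ := nhds_agree _ _ hu
  exact ⟨m, fun q hq => hu2 (hm q hq)⟩

theorem ne_agree {x y : X} (h : x ≠ y) : ∃ m, ¬ Agree m x y := by
  by_contra hcon
  push Not at hcon
  apply h
  funext i
  exact hcon (i + 1) i (Nat.lt_succ_self i)

theorem bounded {ι : Type} (F : ι → ℕ → ℕ) (h : #ι < bnum) : ∃ g, ∀ i, LeStar (F i) g := by
  by_contra hcon
  have h1 : bnum ≤ #(range F) := by
    refine csInf_le' ⟨range F, rfl, ?_⟩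
    rintro ⟨g, hg⟩
    exact hcon ⟨g, fun i => hg _ (mem_range_self i)⟩
  exact absurd (h1.trans mk_range_le) (not_le.2 h)

theorem mono_bound (f : ℕ → ℕ) : ∃ g : ℕ → ℕ, Monotone g ∧ ∀ n, f n ≤ g n := by
  refine ⟨fun n => ∑ i ∈ Finset.range (n + 1), f i, ?_, ?_⟩
  · intro a b hab
    exact Finset.sum_le_sum_of_subset (Finset.range_mono (by omega))
  · intro n
    exact Finset.single_le_sum (f := f) (fun _ _ => Nat.zero_le _)
      (Finset.mem_range.2 (Nat.lt_succ_self n))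

/-- one sided extension lemma. -/
theorem ext_lemma (S : Set X) (k : S → X) (T : Set S) (f : ℕ → ℕ)
    (hT : ∀ p ∈ T, ∀ i, ∀ q : S, Agree (f i) q p → Agree i (k q) (k p)) :
    ∃ φ : X → X, Continuous φ ∧ ∀ q : S, (q : X) ∈ closure ((↑) '' T : Set X) → φ q = k q := by
  classical
  refine ⟨fun x i => decide (∃ p ∈ T, Agree (f (i + 1)) p x ∧ k p i = true), ?_, ?_⟩
  · refine continuous_pi fun i => IsLocallyConstant.continuous ?_
    rw [IsLocallyConstant.iff_eventually_eq]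
    intro x
    filter_upwards [agree_nhds x (f (i + 1))] with y hy
    simp only [decide_eq_decide]
    constructor
    · rintro ⟨p, hp, h1, h2⟩
      exact ⟨p, hp, agree_trans h1 hy, h2⟩
    · rintro ⟨p, hp, h1, h2⟩
      exact ⟨p, hp, agree_trans h1 (agree_symm hy), h2⟩
  · intro q hq
    funext i
    have key : ∀ p ∈ T, Agree (f (i + 1)) p q → k p i = k q i := by
      intro p hp h1
      exact (hT p hp (i + 1) q (agree_symm h1) i (Nat.lt_succ_self i)).symm
    obtain ⟨_, ⟨p, hp, rfl⟩, h1⟩ := closure_agree hq (f (i + 1))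
    show decide (∃ p ∈ T, Agree (f (i + 1)) p q ∧ k p i = true) = k q i
    cases hb : k q i with
    | false =>
      refine decide_eq_false ?_
      rintro ⟨p', hp', h2, h3⟩
      rw [key p' hp' h2, hb] at h3
      exact absurd h3 (by simp)
    | true =>
      refine decide_eq_true ⟨p, hp, h1, ?_⟩
      rw [key p hp h1, hb]

theorem approx : Approx := by
  intro P R h hP c d hc hd
  -- the moduli
  have hm : ∀ (p : P) (i : ℕ), ∃ m : ℕ,
      (∀ q : P, Agree m q p → Agree i (h q) (h p)) ∧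
      (∀ r : R, Agree m r (h p) → Agree i (h.symm r) p) ∧
      ¬ Agree m p (c i) ∧ ¬ Agree m (h p) (d i) := by
    intro p i
    obtain ⟨m1, h1⟩ := modulus (fun q : P => ((h q : R) : X))
      (continuous_subtype_val.comp h.continuous) p i
    obtain ⟨m2, h2⟩ := modulus (fun q : R => ((h.symm q : P) : X))
      (continuous_subtype_val.comp h.symm.continuous) (h p) i
    obtain ⟨m3, h3⟩ := ne_agree (x := (p : X)) (y := c i) (fun e => hc i (e ▸ p.2))
    obtain ⟨m4, h4⟩ := ne_agree (x := ((h p : R) : X)) (y := d i) (fun e => hd i (e ▸ (h p).2))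
    refine ⟨max (max m1 m2) (max m3 m4), fun q hq => ?_, fun r hr => ?_, fun ha => ?_, fun ha => ?_⟩
    · exact h1 q (agree_mono (by omega) hq)
    · have := h2 r (agree_mono (by omega) hr)
      simpa using this
    · exact h3 (agree_mono (by omega) ha)
    · exact h4 (agree_mono (by omega) ha)
  choose m hm1 hm2 hm3 hm4 using hm
  obtain ⟨f0, hf0⟩ := bounded m hP
  set T : ℕ → Set P := fun n => {p | ∀ i, m p i ≤ f0 i + n} with hT
  have hTev : ∀ p : P, ∃ N, ∀ n ≥ N, p ∈ T n := by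
    intro p
    obtain ⟨K, hK⟩ := eventually_atTop.1 (hf0 p)
    refine ⟨∑ i ∈ Finset.range K, m p i, fun n hn i => ?_⟩
    by_cases hi : i < K
    · have := Finset.single_le_sum (f := m p) (fun _ _ => Nat.zero_le _) (Finset.mem_range.2 hi)
      omega
    · have := hK i (not_lt.1 hi)
      omega
  -- the extensions
  have hφ : ∀ n, ∃ φ : X → X, Continuous φ ∧
      ∀ q : P, (q : X) ∈ closure ((↑) '' T n : Set X) → φ q = h q := by
    intro n
    refine ext_lemma P (fun q => ((h q : R) : X)) (T n) (fun i => f0 i + n) fun p hp i q hq => ?_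
    exact hm1 p i q (agree_mono (hp i) hq)
  set TR : ℕ → Set R := fun n => {r | h.symm r ∈ T n} with hTR
  have hψ : ∀ n, ∃ ψ : X → X, Continuous ψ ∧
      ∀ q : R, (q : X) ∈ closure ((↑) '' TR n : Set X) → ψ q = h.symm q := by
    intro n
    refine ext_lemma R (fun q => ((h.symm q : P) : X)) (TR n) (fun i => f0 i + n)
      fun r hr i q hq => ?_
    have h1 := hm2 (h.symm r) i q
    rw [h.apply_symm_apply] at h1
    exact h1 (agree_mono (hr i) hq)
  choose φ kφ eφ using hφ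
  choose ψ kψ eψ using hψ
  set F : ℕ → Set X := fun n => closure ((↑) '' T n : Set X) with hF
  set G : ℕ → Set X := fun n => closure ((↑) '' TR n : Set X) with hG
  have mapP : ∀ n, MapsTo (φ n) ((↑) '' T n : Set X) ((↑) '' TR n : Set X) := by
    rintro n _ ⟨p, hp, rfl⟩
    rw [eφ n p (subset_closure ⟨p, hp, rfl⟩)]
    exact ⟨h p, by show h.symm (h p) ∈ T n; rwa [h.symm_apply_apply], rfl⟩
  have mapR : ∀ n, MapsTo (ψ n) ((↑) '' TR n : Set X) ((↑) '' T n : Set X) := by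
    rintro n _ ⟨r, hr, rfl⟩
    rw [eψ n r (subset_closure ⟨r, hr, rfl⟩)]
    exact ⟨h.symm r, hr, rfl⟩
  have mF : ∀ n, ∀ x ∈ F n, φ n x ∈ G n := fun n x hx => map_mem_closure (kφ n) hx (mapP n)
  have mG : ∀ n, ∀ x ∈ G n, ψ n x ∈ F n := fun n x hx => map_mem_closure (kψ n) hx (mapR n)
  have lF : ∀ n, ∀ x ∈ F n, ψ n (φ n x) = x := by
    intro n
    have h1 : EqOn (fun x => ψ n (φ n x)) id ((↑) '' T n : Set X) := by
      rintro _ ⟨p, hp, rfl⟩
      show ψ n (φ n p) = p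
      rw [eφ n p (subset_closure ⟨p, hp, rfl⟩), eψ n (h p) (subset_closure ⟨h p, by
        show h.symm (h p) ∈ T n; rwa [h.symm_apply_apply], rfl⟩), h.symm_apply_apply]
    exact h1.closure ((kψ n).comp (kφ n)) continuous_id
  have lG : ∀ n, ∀ x ∈ G n, φ n (ψ n x) = x := by
    intro n
    have h1 : EqOn (fun x => φ n (ψ n x)) id ((↑) '' TR n : Set X) := by
      rintro _ ⟨r, hr, rfl⟩
      show φ n (ψ n r) = r
      rw [eψ n r (subset_closure ⟨r, hr, rfl⟩), eφ n (h.symm r) (subset_closure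
        ⟨h.symm r, hr, rfl⟩), h.apply_symm_apply]
    exact h1.closure ((kφ n).comp (kψ n)) continuous_id
  refine ⟨F, G, φ, ψ, fun n => isClosed_closure, fun n => isClosed_closure, fun n => ?_,
    fun n => ?_, fun n i hci => ?_, fun n i hdi => ?_, kφ, kψ, mF, mG, lF, lG, fun n x hx => ?_,
    fun x hx => ?_, fun y hy => ?_⟩
  · refine closure_mono ?_
    rintro _ ⟨p, _, rfl⟩
    exact p.2
  · refine closure_mono ?_
    rintro _ ⟨p, _, rfl⟩
    exact p.2
  · obtain ⟨_, ⟨p, hp, rfl⟩, h1⟩ := closure_agree hci (f0 i + n)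
    exact hm3 p i (agree_mono (hp i) h1)
  · obtain ⟨_, ⟨r, hr, rfl⟩, h1⟩ := closure_agree hdi (f0 i + n)
    have h2 := hm4 (h.symm r) i
    rw [h.apply_symm_apply] at h2
    exact h2 (agree_mono (hr i) h1)
  · constructor
    · intro hxP
      have h1 := eφ n ⟨x, hxP⟩ hx
      rw [h1]
      exact (h ⟨x, hxP⟩).2
    · intro hxR
      have h1 := eψ n ⟨φ n x, hxR⟩ (mF n x hx)
      have h2 : ψ n (φ n x) = x := lF n x hx
      rw [← h2]
      have h3 : ψ n (φ n x) = ((h.symm ⟨φ n x, hxR⟩ : P) : X) := h1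
      rw [h3]
      exact (h.symm ⟨φ n x, hxR⟩).2
  · obtain ⟨N, hN⟩ := hTev ⟨x, hx⟩
    exact ⟨N, fun n hn => subset_closure ⟨⟨x, hx⟩, hN n hn, rfl⟩⟩
  · obtain ⟨N, hN⟩ := hTev (h.symm ⟨y, hy⟩)
    exact ⟨N, fun n hn => subset_closure ⟨⟨y, hy⟩, hN n hn, rfl⟩⟩

end Pool.Agent.R139.Ba
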